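import Pool.Agent.Q263.HS.Geo

/-! # Project HS (helper263): JOB HS-CONT (helper223), adapted from `Pool.Agent.Q154.HR.Cont` -/

set_option autoImplicit false

open scoped Manifold ContDiff Topology
open Set Filter Pool.Agent.H721R2

namespace Pool.Agent.Q223.HS

open Q263.HR Q263.HS

universe u v w

theorem cont : Q263.HS.S_CONT.{u, v, w} := by
  intro E _ _ _ M _ _ _ _ F _ _ e hE W _ _ Φ f Λ Es Eu C a h K hK hang η hη
  have he : ContMDiff 𝓘(ℝ, E) 𝓘(ℝ, F) 1 e := hE.smooth.of_le (by norm_num)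
  have hinj := hE.inj
  have hC := h.C_pos
  have hK0 : 0 < K := by linarith
  have hC0 : 0 < C := by linarith
  have ht1 : Tendsto (fun n : ℕ => C * a ^ n) atTop (𝓝 0) := by
    have := (tendsto_pow_atTop_nhds_zero_of_lt_one h.a_pos.le h.a_lt).const_mul C
    simpa using this
  obtain ⟨D, hD⟩ : ∃ D, D = K * (1 + C) := ⟨_, rfl⟩
  have hD0 : 0 < D := by rw [hD]; positivity
  set q := min 1 (η / 4 / D) with hq
  have hq0 : 0 < q := lt_min one_pos (by positivity)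
  obtain ⟨n, hn1⟩ := ((tendsto_order.mp ht1).2 q hq0).exists
  have hq1 : q ≤ 1 := min_le_left _ _
  have hq2 : D * q ≤ η / 4 := by
    have : q ≤ η / 4 / D := min_le_right _ _
    rw [le_div_iff₀ hD0] at this
    linarith
  obtain ⟨η', hη'⟩ : ∃ η', η' = η / 4 / (1 + D) := ⟨_, rfl⟩
  have hη'0 : 0 < η' := by rw [hη']; positivity
  have hηD : η' + D * η' = η / 4 := by rw [hη']; field_simp
  have hP : ∃ r > 0, ∀ x y, dist x y < r → ∀ v : E, ∃ w : E,
      ‖dm E e x v - dm E e y w‖ ≤ η' * ‖dm E e x v‖ ∧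
      ‖dm E e (f^[n] x) (dg E (f^[n]) x v) - dm E e (f^[n] y) (dg E (f^[n]) y w)‖ ≤
        η' * ‖dm E e x v‖ := by
    apply exists_uniform_radius
    intro x₀
    obtain ⟨-, h1⟩ := local_all e he hinj (e ∘ f^[n]) (he.comp (iter_smooth f h.smooth n)) x₀
    obtain ⟨W, hW, r, hr, -, -, h2⟩ := h1 η' hη'0
    refine ⟨W, hW, fun x hx y hy v => ?_⟩
    obtain ⟨w, h3, h4⟩ := h2 x hx y hy v
    rw [dm_comp e he _ (iter_smooth f h.smooth n), dm_comp e he _ (iter_smooth f h.smooth n)] at h4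
    exact ⟨w, h3, h4⟩
  obtain ⟨r₁, hr₁, hP⟩ := hP
  refine ⟨r₁, hr₁, fun x hx y hy hxy s hs => ?_⟩
  obtain ⟨w, h1, h2⟩ := hP x y hxy s
  set N := ‖dm E e x s‖ with hN
  have hN0 : 0 ≤ N := norm_nonneg _
  obtain ⟨ws, hws, wu, hwu, t, hsum⟩ := h.decomp y hy w
  refine ⟨ws, hws, ?_⟩
  set Ds := dm E e (f^[n] x) (dg E (f^[n]) x s) with hDs
  set Dw := dm E e (f^[n] y) (dg E (f^[n]) y w) with hDw
  set Dwu := dm E e (f^[n] y) (dg E (f^[n]) y wu) with hDwu
  have h3 : ‖Ds‖ ≤ q * N := (h.hS n x hx s hs).trans (mul_le_mul_of_nonneg_right hn1.le hN0)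
  have h4 : ‖Dw‖ ≤ (q + η') * N := by
    have h5 := norm_sub_le Ds (Ds - Dw)
    rw [sub_sub_cancel] at h5
    linarith
  -- the angle hypothesis at `f^n y`
  have hsum' : dg E (f^[n]) y ws + dg E (f^[n]) y wu + orb E Φ (f^[n] y) t = dg E (f^[n]) y w := by
    rw [← h.eqv n y t, ← map_add, ← map_add, hsum]
  obtain ⟨-, ha2, ha3⟩ := hang (f^[n] y) (h.inv y hy n) _ (h.mapS n y hy ws hws) _
    (h.mapU n y hy wu hwu) t
  rw [hsum'] at ha2 ha3
  have hX0 : 0 ≤ (q + η') * N := by positivity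
  have h6 : ‖Dwu‖ ≤ K * ((q + η') * N) := ha2.trans (mul_le_mul_of_nonneg_left h4 hK0.le)
  have h7 : ‖t‖ ≤ K * ((q + η') * N) := ha3.trans (mul_le_mul_of_nonneg_left h4 hK0.le)
  have h5 : ‖dm E e y wu‖ ≤ q * ‖Dwu‖ := by
    have h6 := h.hU' n (f^[n] y) (h.inv y hy n) _ (h.mapU n y hy wu hwu)
    rw [dg_inv (f^[n]) (f.symm^[n]) (iter_smooth f h.smooth n) (iter_smooth _ h.smooth' n)
      (iter_left f n), iter_left] at h6
    exact h6.trans (mul_le_mul_of_nonneg_right hn1.le (norm_nonneg _))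
  have h8 : ‖dm E e y wu‖ ≤ 1 * (K * ((q + η') * N)) :=
    h5.trans (mul_le_mul hq1 h6 (norm_nonneg _) zero_le_one)
  have h9 : ‖dm E e y (orb E Φ y t)‖ ≤ C * (K * ((q + η') * N)) :=
    (h.up y t).trans (mul_le_mul_of_nonneg_left h7 hC0.le)
  have e1 : dm E e x s - dm E e y ws =
      (dm E e x s - dm E e y w) + dm E e y wu + dm E e y (orb E Φ y t) := by
    rw [← hsum, map_add, map_add]; abel
  rw [e1]
  have h10 := norm_add_le (dm E e x s - dm E e y w + dm E e y wu) (dm E e y (orb E Φ y t))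
  have h11 := norm_add_le (dm E e x s - dm E e y w) (dm E e y wu)
  have h12 : η' * N + (1 * (K * ((q + η') * N)) + C * (K * ((q + η') * N))) =
      (D * q + (η' + D * η')) * N := by
    rw [hD]; ring
  have h13 : (D * q + (η' + D * η')) * N ≤ η * N := by
    refine mul_le_mul_of_nonneg_right ?_ hN0
    rw [hηD]; linarith
  linarith

end Pool.Agent.Q223.HS
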