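import Pool.Agent.Q263.HS.Geo
import Pool.Agent.Q285.HR.Fl

/-! # Project HS (helper263): JOB HS-FL (helper223), adapted from `Pool.Agent.Q285.HR.Fl` -/

set_option autoImplicit false

open scoped Manifold ContDiff Topology
open Set Filter Pool.Agent.H721R2

namespace Pool.Agent.Q223.HS

open Q263.HR Q263.HS

universe u v w

section fl

/-- local to global on a compact metric space, with a small parameter -/
theorem fl_glob {M : Type v} [MetricSpace M] [CompactSpace M] {W : Type} [NormedAddCommGroup W]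
    (Q : W → M → M → Prop)
    (h : ∀ x₀ : M, ∃ U ∈ 𝓝 x₀, ∃ r > 0, ∀ τ : W, ‖τ‖ < r → ∀ y ∈ U, ∀ y' ∈ U, Q τ y y') :
    ∃ r > 0, ∀ (τ : W) (y y' : M), ‖τ‖ < r → dist y y' < r → Q τ y y' := by
  obtain ⟨r, hr, hP⟩ := exists_uniform_small
    (fun r (x : M) => ∀ (τ : W) (y' : M), ‖τ‖ < r → dist x y' < r → Q τ x y')
    (fun C C' x hC hx τ y' h1 h2 => hx τ y' (h1.trans_le hC) (h2.trans_le hC)) (by
      intro x₀
      obtain ⟨U, hU, r, hr, hQ⟩ := h x₀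
      obtain ⟨ρ, hρ, hb⟩ := Metric.mem_nhds_iff.mp hU
      refine ⟨min r (ρ / 2), lt_min hr (half_pos hρ), ?_⟩
      filter_upwards [Metric.ball_mem_nhds x₀ (half_pos hρ)] with x hx τ y' h1 h2
      have h3 : dist x x₀ < ρ / 2 := hx
      have h4 := h2.trans_le (min_le_right _ _)
      refine hQ τ (h1.trans_le (min_le_left _ _)) x (hb ?_) y' (hb ?_)
      · rw [Metric.mem_ball]; linarith
      · rw [Metric.mem_ball]
        have h5 := dist_triangle y' x x₀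
        rw [dist_comm y' x] at h5
        linarith)
  exact ⟨r, hr, fun τ y y' h1 h2 => hP y τ y' h1 h2⟩

variable {E : Type u} [NormedAddCommGroup E] [NormedSpace ℝ E] [FiniteDimensional ℝ E]
  {M : Type v} [MetricSpace M] [ChartedSpace E M] [IsManifold 𝓘(ℝ, E) ∞ M]
  {F : Type w} [NormedAddCommGroup F] [NormedSpace ℝ F] {e : M → F}
  {W : Type} [NormedAddCommGroup W] [NormedSpace ℝ W] {Φ : W → M → M}

/-- the action in a chart at the start, in the ambient space at the end -/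
noncomputable def PsiE (e : M → F) (Φ : W → M → M) (x₀ : M) (z : W × E) : F :=
  e (Φ z.1 ((extChartAt 𝓘(ℝ, E) x₀).symm z.2))

theorem PsiE_contDiff (hE : Emb E e) (d : IsAct E Φ) (x₀ : M) :
    ContDiffAt ℝ 1 (PsiE e Φ x₀) ((0 : W), extChartAt 𝓘(ℝ, E) x₀ x₀) := by
  have hq := mem_extChartAt_source (I := 𝓘(ℝ, E)) x₀
  rw [← contMDiffAt_iff_contDiffAt]
  have h0 : ContMDiffAt 𝓘(ℝ, E) 𝓘(ℝ, E) 1 (extChartAt 𝓘(ℝ, E) x₀).symm
      (extChartAt 𝓘(ℝ, E) x₀ x₀) := (Q71.WN.md_symm hq).of_le (by simp)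
  have h1 : ContMDiffAt 𝓘(ℝ, W × E) 𝓘(ℝ, E) 1
      (fun z : W × E => (extChartAt 𝓘(ℝ, E) x₀).symm z.2)
      ((0 : W), extChartAt 𝓘(ℝ, E) x₀ x₀) := by
    refine ContMDiffAt.comp ((0 : W), extChartAt 𝓘(ℝ, E) x₀ x₀) h0 ?_
    exact (contMDiffAt_iff_contDiffAt.2 contDiffAt_snd)
  have h2 : ContMDiffAt 𝓘(ℝ, W × E) 𝓘(ℝ, W) 1
      (fun z : W × E => z.1) ((0 : W), extChartAt 𝓘(ℝ, E) x₀ x₀) :=
    (contMDiffAt_iff_contDiffAt.2 contDiffAt_fst)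
  have h3 : ContMDiffAt 𝓘(ℝ, W × E) 𝓘(ℝ, E) 1
      (fun z : W × E => Φ z.1 ((extChartAt 𝓘(ℝ, E) x₀).symm z.2))
      ((0 : W), extChartAt 𝓘(ℝ, E) x₀ x₀) :=
    (d.smooth _).comp ((0 : W), extChartAt 𝓘(ℝ, E) x₀ x₀) (h2.prodMk h1)
  exact ContMDiffAt.comp ((0 : W), extChartAt 𝓘(ℝ, E) x₀ x₀)
    ((hE.smooth.of_le (by simp)) _) h3

omit [FiniteDimensional ℝ E] [IsManifold 𝓘(ℝ, E) ∞ M] in
theorem fl_orb (d : IsAct E Φ) (x : M) :
    HasMFDerivAt 𝓘(ℝ, W) 𝓘(ℝ, E) (fun t : W => Φ t x) 0 (orb E (M := M) (W := W) Φ x) := by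
  have h1 : ContMDiffAt 𝓘(ℝ, W) 𝓘(ℝ, E) 1 (fun t : W => Φ t x) 0 := by
    have h2 : ContMDiffAt 𝓘(ℝ, W) (𝓘(ℝ, W).prod 𝓘(ℝ, E)) 1 (fun t : W => (t, x)) 0 :=
      contMDiffAt_id.prodMk contMDiffAt_const
    exact ContMDiffAt.comp (0 : W) (d.smooth _) h2
  exact (h1.mdifferentiableAt (by simp)).hasMFDerivAt

theorem fl_deriv (hE : Emb E e) (d : IsAct E Φ) (x : M) :
    HasFDerivAt (fun t : W => e (Φ t x)) ((dm E e x : E →L[ℝ] F).comp (orb E Φ x)) 0 := by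
  have h1 := fl_orb d x
  have h2 := HasMFDerivAt.comp (0 : W) (g := e) (f := fun s => Φ s x)
    ((hE.smooth.mdifferentiableAt (x := Φ 0 x) (by simp)).hasMFDerivAt) h1
  have h2' : HasFDerivAt (fun t : W => e (Φ t x))
      ((dm E e (Φ 0 x) : E →L[ℝ] F).comp (orb E Φ x)) 0 :=
    hasMFDerivAt_iff_hasFDerivAt.1 h2
  have e1 : ∀ z : M, z = x → ((dm E e z : E →L[ℝ] F).comp (orb E Φ x) : W →L[ℝ] F) =
      (dm E e x : E →L[ℝ] F).comp (orb E Φ x) := by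
    rintro _ rfl
    rfl
  rw [e1 _ (d.zero x)] at h2'
  exact h2'

/-- strict differentiability of `PsiE`, in terms of points of the manifold -/
theorem fl_strict (hE : Emb E e) (d : IsAct E Φ) (x₀ : M) :
    ∃ A : W × E →L[ℝ] F, ∀ η > 0, ∃ U ∈ 𝓝 x₀, ∃ r > 0, ∀ t t' : W, ‖t‖ < r → ‖t'‖ < r →
      ∀ y ∈ U, ∀ y' ∈ U, ‖e (Φ t' y') - e (Φ t y) -
        A (t' - t, extChartAt 𝓘(ℝ, E) x₀ y' - extChartAt 𝓘(ℝ, E) x₀ y)‖ ≤
        η * ‖((t' - t, extChartAt 𝓘(ℝ, E) x₀ y' - extChartAt 𝓘(ℝ, E) x₀ y) : W × E)‖ := by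
  set φ := extChartAt 𝓘(ℝ, E) x₀ with hφ
  have hx₀ : x₀ ∈ φ.source := mem_extChartAt_source x₀
  have hs := (PsiE_contDiff hE d x₀).hasStrictFDerivAt (by simp)
  refine ⟨fderiv ℝ (PsiE e Φ x₀) ((0 : W), φ x₀), fun η hη => ?_⟩
  rw [hasStrictFDerivAt_iff_isLittleO] at hs
  have h1 := hs.def hη
  rw [nhds_prod_eq, Filter.Eventually, Filter.mem_prod_self_iff] at h1
  obtain ⟨T, hT, h1⟩ := h1
  rw [← hφ, Metric.mem_nhds_iff] at hT
  obtain ⟨r, hr, hT⟩ := hT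
  have h2 : ContinuousAt φ x₀ := continuousAt_extChartAt x₀
  refine ⟨φ.source ∩ φ ⁻¹' Metric.ball (φ x₀) r,
    inter_mem ((isOpen_extChartAt_source (I := 𝓘(ℝ, E)) x₀).mem_nhds hx₀)
      (h2.preimage_mem_nhds (Metric.ball_mem_nhds _ hr)), r, hr, ?_⟩
  rintro t t' ht ht' y ⟨hys, hyb⟩ y' ⟨hys', hyb'⟩
  have hmem : ∀ (s : W) (z : E), ‖s‖ < r → z ∈ Metric.ball (φ x₀) r → ((s, z) : W × E) ∈ T := by
    intro s z hs hz
    apply hT
    rw [Metric.mem_ball, Prod.dist_eq, max_lt_iff]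
    exact ⟨by simpa using hs, hz⟩
  have h4 := h1 (Set.mk_mem_prod (hmem t' (φ y') ht' hyb') (hmem t (φ y) ht hyb))
  simp only [mem_ofPred_eq] at h4
  have ey : PsiE e Φ x₀ (t, φ y) = e (Φ t y) := by
    show e (Φ t (φ.symm (φ y))) = _; rw [φ.left_inv hys]
  have ey' : PsiE e Φ x₀ (t', φ y') = e (Φ t' y') := by
    show e (Φ t' (φ.symm (φ y'))) = _; rw [φ.left_inv hys']
  rw [ey, ey', Prod.mk_sub_mk] at h4
  exact h4

theorem fl_F1 (hE : Emb E e) (d : IsAct E Φ) (η : ℝ) (hη : 0 < η)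
    (x₀ : M) : ∃ U ∈ 𝓝 x₀, ∃ r > 0, ∀ τ : W, ‖τ‖ < r → ∀ y ∈ U, ∀ y' ∈ U,
      ‖(e (Φ τ y') - e (Φ τ y)) - (e y' - e y)‖ ≤ η * dist y y' := by
  obtain ⟨C, hC, W1, hW1, hlow⟩ := fl_low hE x₀
  obtain ⟨A, hA⟩ := fl_strict hE d x₀
  obtain ⟨U, hU, r, hr, h1⟩ := hA (η / (2 * C)) (by positivity)
  refine ⟨W1 ∩ U, inter_mem hW1 hU, r, hr, ?_⟩
  rintro τ hτ y ⟨hy1, hy⟩ y' ⟨hy1', hy'⟩
  have h2 := h1 τ τ hτ hτ y hy y' hy'
  have h3 := h1 0 0 (by simpa using hr) (by simpa using hr) y hy y' hy'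
  rw [sub_self] at h2 h3
  rw [d.zero, d.zero] at h3
  have h4 := hlow y hy1 y' hy1'
  set q := extChartAt 𝓘(ℝ, E) x₀ y' - extChartAt 𝓘(ℝ, E) x₀ y with hq
  have h5 : ‖((0, q) : W × E)‖ = ‖q‖ := by
    rw [Prod.norm_def]; simp
  rw [h5] at h2 h3
  have e1 : (e (Φ τ y') - e (Φ τ y)) - (e y' - e y) =
      (e (Φ τ y') - e (Φ τ y) - A (0, q)) - (e y' - e y - A (0, q)) := by abel
  rw [e1]
  have h6 := norm_sub_le (e (Φ τ y') - e (Φ τ y) - A (0, q)) (e y' - e y - A (0, q))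
  have h7 : η / (2 * C) * ‖q‖ ≤ η / (2 * C) * (C * dist y y') :=
    mul_le_mul_of_nonneg_left h4 (by positivity)
  have h8 : η / (2 * C) * (C * dist y y') = η / 2 * dist y y' := by
    field_simp
  linarith

theorem fl_vec (hE : Emb E e) (d : IsAct E Φ)
    (x₀ : M) : ∃ a : W →L[ℝ] F, ∀ η > 0, ∃ U ∈ 𝓝 x₀, ∃ r > 0,
      (∀ y ∈ U, ∀ t : W, ‖dm E e y (orb E Φ y t) - a t‖ ≤ η * ‖t‖) ∧
      ∀ t : W, ‖t‖ < r → ∀ y ∈ U, ‖e (Φ t y) - e y - a t‖ ≤ η * ‖t‖ := by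
  obtain ⟨A, hA⟩ := fl_strict hE d x₀
  refine ⟨A.comp (ContinuousLinearMap.inl ℝ W E), fun η hη => ?_⟩
  obtain ⟨U, hU, r, hr, h1⟩ := hA η hη
  set a : W →L[ℝ] F := A.comp (ContinuousLinearMap.inl ℝ W E) with ha
  have key : ∀ t : W, ‖t‖ < r → ∀ y ∈ U, ‖e (Φ t y) - e y - a t‖ ≤ η * ‖t‖ := by
    intro t ht y hy
    have h2 := h1 0 t (by simpa using hr) ht y hy y hy
    rw [sub_self, sub_zero, d.zero] at h2
    have h3 : A (t, 0) = a t := by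
      simp [ha]
    have h5 : ‖((t, 0) : W × E)‖ = ‖t‖ := by
      rw [Prod.norm_def]; simp
    rw [h3, h5] at h2
    exact h2
  refine ⟨U, hU, r, hr, fun y hy t => ?_, key⟩
  have h2 := fl_deriv hE d y
  have h3 : HasFDerivAt (fun t : W => e (Φ t y) - a t)
      ((dm E e y : E →L[ℝ] F).comp (orb E Φ y) - a) 0 := h2.sub a.hasFDerivAt
  have h6 := h3.le_of_lip' hη.le (by
    filter_upwards [Metric.ball_mem_nhds (0:W) hr] with t ht
    have ht' : ‖t‖ < r := by simpa using ht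
    have h7 := key t ht' y hy
    simp only [d.zero, map_zero, sub_zero]
    have e2 : e (Φ t y) - a t - e y = e (Φ t y) - e y - a t := by abel
    rw [e2]
    exact h7)
  have h7 := ((dm E e y : E →L[ℝ] F).comp (orb E Φ y) - a).le_opNorm t
  exact h7.trans (mul_le_mul_of_nonneg_right h6 (norm_nonneg t))

theorem fl_F2 (hE : Emb E e) (d : IsAct E Φ) (η : ℝ) (hη : 0 < η)
    (x₀ : M) : ∃ U ∈ 𝓝 x₀, ∃ r > 0, ∀ t : W, ‖t‖ < r → ∀ x ∈ U, ∀ y ∈ U,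
      ‖e (Φ t y) - e y - dm E e x (orb E Φ x t)‖ ≤ η * ‖t‖ := by
  obtain ⟨a, ha⟩ := fl_vec hE d x₀
  obtain ⟨U, hU, r, hr, h1, h2⟩ := ha (η / 2) (half_pos hη)
  refine ⟨U, hU, r, hr, fun t ht x hx y hy => ?_⟩
  have h3 := h1 x hx t
  have h4 := h2 t ht y hy
  have e1 : e (Φ t y) - e y - dm E e x (orb E Φ x t) =
      (e (Φ t y) - e y - a t) - (dm E e x (orb E Φ x t) - a t) := by
    abel
  rw [e1]
  have h5 := norm_sub_le (e (Φ t y) - e y - a t) (dm E e x (orb E Φ x t) - a t)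
  linarith

end fl

/-- **JOB HS-FL** -/
theorem fl : Q263.HS.S_FL.{u, v, w} := by
  intro E _ _ _ M _ _ _ _ F _ _ e hE W _ _ Φ d
  obtain ⟨B, hB, hbd⟩ := exists_uniform_const
    (fun C (x : M) => ∀ t : W, ‖dm E e x (orb E Φ x t)‖ ≤ C * ‖t‖)
    (fun C C' x h1 h2 t => (h2 t).trans (mul_le_mul_of_nonneg_right h1 (norm_nonneg t))) (by
      intro x₀
      obtain ⟨a, ha⟩ := fl_vec hE d x₀
      obtain ⟨U, hU, r, hr, h1, -⟩ := ha 1 one_pos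
      refine ⟨‖a‖ + 1, ?_⟩
      filter_upwards [hU] with x hx t
      have h2 := h1 x hx t
      have h3 := norm_add_le (a t) (dm E e x (orb E Φ x t) - a t)
      rw [add_sub_cancel] at h3
      have h4 := a.le_opNorm t
      linarith)
  refine ⟨B, hB, hbd, fun η hη => ?_, fun η hη => ?_⟩
  · exact fl_glob (fun τ y y' => ‖(e (Φ τ y') - e (Φ τ y)) - (e y' - e y)‖ ≤ η * dist y y')
      (fl_F1 hE d η hη)
  · obtain ⟨r, hr, h⟩ := fl_glob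
      (fun (t : W) (x y : M) => ‖e (Φ t y) - e y - dm E e x (orb E Φ x t)‖ ≤ η * ‖t‖)
      (fl_F2 hE d η hη)
    exact ⟨r, hr, fun x y t h1 h2 => h t x y h2 h1⟩

end Pool.Agent.Q223.HS
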